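import Mathlib

set_option autoImplicit false

/-!
# The trivial subgroup of Thompson's group `F` is not tame with respect to `P_∞`

`Y` is the Cayley 2-complex of `P_∞ = ⟨x_0, x_1, … | x_k⁻¹ x_n x_k = x_{n+1} (k < n)⟩` as a
topological space. Let `C` consist of the two end points `1` and `x_0` of the edge `e` from `1`
labelled `x_0`. This edge lies in infinitely many squares `σ_n` (the relators with `k = 0` and
`n ≥ 1`). In `Y ∖ C` the open edge `e` is joined to the rest of the complex through the squares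
`σ_n` only, and the rest is connected. So the loops which leave `e` through `σ_n` and come back
through `σ_1` are independent: for every `n` there is a continuous map of `Y ∖ C` to the circle
which counts the passages through `σ_n`, and every loop passes only finitely many squares `σ_n`.
-/

namespace Pool.Agent.Results.MP_d8e3a9_al.NotTame

open Set Topology unitInterval

/-- the relators `x_k⁻¹ x_n x_k x_{n+1}⁻¹` with `k < n` -/
def rels : Set (FreeGroup ℕ) :=
  {r | ∃ k n : ℕ, k < n ∧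
    r = (FreeGroup.of k)⁻¹ * FreeGroup.of n * FreeGroup.of k * (FreeGroup.of (n + 1))⁻¹}

/-- Thompson's group `F`, given by the presentation `P_∞` -/
abbrev F : Type := PresentedGroup rels

/-- `F` and the index set `Rel` have the discrete topology -/
instance : TopologicalSpace F := ⊥

instance : DiscreteTopology F := ⟨rfl⟩

/-- the generators -/
def x (n : ℕ) : F := PresentedGroup.of (rels := rels) n

/-- the index set of the relators: the pairs `(k, n)` with `k < n` -/
def Rel : Type := {p : ℕ × ℕ // p.1 < p.2}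

instance : TopologicalSpace Rel := ⊥

instance : DiscreteTopology Rel := ⟨rfl⟩

/-- the disjoint union of the cells: a vertex for every `g : F`, an interval `[0, 1]` for every
`g : F` and every generator, a square `[0, 1] × [0, 1]` for every `g : F` and every relator -/
abbrev Pre : Type := F ⊕ ((Σ _ : F × ℕ, I) ⊕ (Σ _ : F × Rel, I × I))

/-- the vertex `g` -/
def V (g : F) : Pre := Sum.inl g

/-- the point `s` of the edge from `g` to `g x_k` -/
def E (g : F) (k : ℕ) (s : I) : Pre := Sum.inr (Sum.inl ⟨(g, k), s⟩)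

/-- the point `p` of the square with the corners `g`, `g x_k`, `g x_n` and
`g x_n x_k = g x_k x_{n+1}`, `r = (k, n)` -/
def S (g : F) (r : Rel) (p : I × I) : Pre := Sum.inr (Sum.inr ⟨(g, r), p⟩)

/-- the attaching maps. The boundary of the square of `g` and `r = (k, n)`, read from the corner
`g x_k` over `g`, `g x_n` and `g x_n x_k` back to `g x_k`, is the relator
`x_k⁻¹ x_n x_k x_{n+1}⁻¹`. -/
inductive Glue : Pre → Pre → Prop
  | source (g : F) (k : ℕ) : Glue (E g k 0) (V g)
  | target (g : F) (k : ℕ) : Glue (E g k 1) (V (g * x k))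
  | bottom (g : F) (r : Rel) (s : I) : Glue (S g r (s, 0)) (E g r.1.1 s)
  | top (g : F) (r : Rel) (s : I) : Glue (S g r (s, 1)) (E (g * x r.1.2) r.1.1 s)
  | left (g : F) (r : Rel) (t : I) : Glue (S g r (0, t)) (E g r.1.2 t)
  | right (g : F) (r : Rel) (t : I) : Glue (S g r (1, t)) (E (g * x r.1.1) (r.1.2 + 1) t)

/-- the Cayley 2-complex of the presentation `P_∞`, with the quotient topology -/
def Y : Type := Quot Glue

instance : TopologicalSpace Y := inferInstanceAs (TopologicalSpace (Quot Glue))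

/-- the quotient map -/
def mk (q : Pre) : Y := Quot.mk Glue q

/-- the cells -/
inductive Cell : Type
  | v (g : F)
  | e (g : F) (k : ℕ)
  | c (g : F) (r : Rel)

/-- the closed cells, as subsets of the complex -/
def closedCell : Cell → Set Y
  | Cell.v g => {mk (V g)}
  | Cell.e g k => range fun s => mk (E g k s)
  | Cell.c g r => range fun p => mk (S g r p)

/-- finite subcomplexes: unions of finitely many closed cells -/
def IsFiniteSubcomplex (C : Set Y) : Prop :=
  ∃ A : Set Cell, A.Finite ∧ C = ⋃ c ∈ A, closedCell c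

/-- The trivial subgroup is tame in `F` with respect to `P_∞`: for every finite subcomplex `C` and
every connected component `K` of the complement of `C` the group `π₁(K)` is finitely generated
(here `K` is the component of `y`, and `y` is the base point). -/
def Tame : Prop := ∀ C : Set Y, IsFiniteSubcomplex C → ∀ (y : Y) (hy : y ∈ Cᶜ),
  Group.FG (FundamentalGroup (connectedComponentIn Cᶜ y) ⟨y, mem_connectedComponentIn hy⟩)

/-! ### The quotient -/

theorem isQuot : IsQuotientMap mk := isQuotientMap_quot_mk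

theorem mk_cont : Continuous mk := isQuot.continuous

theorem rel_eq {k n : ℕ} (h : k < n) : x n * x k = x k * x (n + 1) := by
  have h1 : (PresentedGroup.mk rels
      ((FreeGroup.of k)⁻¹ * FreeGroup.of n * FreeGroup.of k * (FreeGroup.of (n + 1))⁻¹)) = 1 :=
    PresentedGroup.one_of_mem ⟨k, n, h, rfl⟩
  have h2 : (x k)⁻¹ * x n * x k * (x (n + 1))⁻¹ = 1 := by
    rw [map_mul, map_mul, map_mul, map_inv, map_inv] at h1
    exact h1
  have h3 : (x k)⁻¹ * x n * x k = x (n + 1) := mul_inv_eq_one.1 h2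
  rw [← h3]
  group

theorem g_source (g : F) (k : ℕ) : mk (E g k 0) = mk (V g) := Quot.sound (Glue.source g k)

theorem g_target (g : F) (k : ℕ) : mk (E g k 1) = mk (V (g * x k)) := Quot.sound (Glue.target g k)

theorem g_bottom (g : F) (r : Rel) (s : I) : mk (S g r (s, 0)) = mk (E g r.1.1 s) :=
  Quot.sound (Glue.bottom g r s)

theorem g_top (g : F) (r : Rel) (s : I) : mk (S g r (s, 1)) = mk (E (g * x r.1.2) r.1.1 s) :=
  Quot.sound (Glue.top g r s)

/-! ### The height -/

/-- `x_0 ↦ 0`, `x_n ↦ 1` for `n ≥ 1` -/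
def hom : F →* Multiplicative ℤ :=
  PresentedGroup.toGroup (rels := rels)
    (f := fun n : ℕ => Multiplicative.ofAdd (if n = 0 then (0 : ℤ) else 1)) (by
      rintro r ⟨k, n, h, rfl⟩
      have hn : n ≠ 0 := by omega
      simp only [map_mul, map_inv, FreeGroup.lift_apply_of, if_neg hn,
        if_neg (Nat.succ_ne_zero n)]
      rw [mul_comm (_⁻¹ : Multiplicative ℤ), inv_mul_cancel_right, mul_inv_cancel])

/-- the height of a vertex -/
def ht (g : F) : ℤ := Multiplicative.toAdd (hom g)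

theorem ht_mul (g h : F) : ht (g * h) = ht g + ht h := by
  unfold ht
  rw [map_mul, toAdd_mul]

theorem ht_one : ht 1 = 0 := by
  unfold ht
  rw [map_one]
  rfl

theorem ht_x (n : ℕ) : ht (x n) = if n = 0 then 0 else 1 := by
  unfold ht hom x
  rw [PresentedGroup.toGroup.of]
  rfl

/-- the height -/
noncomputable def H0 : Pre → ℝ
  | Sum.inl g => ht g
  | Sum.inr (Sum.inl ⟨(g, k), s⟩) => ht g + s * ht (x k)
  | Sum.inr (Sum.inr ⟨(g, r), p⟩) => ht g + p.1 * ht (x r.1.1) + p.2 * ht (x r.1.2)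

/-- the height, on the complex -/
noncomputable def H : Y → ℝ := Quot.lift H0 (by
  intro a b h
  cases h with
  | source g k => simp [E, V, H0]
  | target g k => simp [E, V, H0, ht_mul]
  | bottom g r s => simp [S, E, H0]
  | top g r s => simp [S, E, H0, ht_mul]; ring
  | left g r t => simp [S, E, H0]
  | right g r t =>
    have h1 : r.1.2 ≠ 0 := by have := r.2; omega
    simp [S, E, H0, ht_mul, ht_x, h1])

/-- the property of being a vertex -/
def isV0 : Pre → Prop
  | Sum.inl _ => True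
  | Sum.inr (Sum.inl ⟨_, s⟩) => s = 0 ∨ s = 1
  | Sum.inr (Sum.inr ⟨_, p⟩) => (p.1 = 0 ∨ p.1 = 1) ∧ (p.2 = 0 ∨ p.2 = 1)

/-- the property of being a vertex, on the complex -/
def isV : Y → Prop := Quot.lift isV0 (by
  intro a b h
  cases h with
  | source g k => simp [E, V, isV0]
  | target g k => simp [E, V, isV0]
  | bottom g r s => simp [S, E, isV0]
  | top g r s => simp [S, E, isV0]
  | left g r t => simp [S, E, isV0]
  | right g r t => simp [S, E, isV0])

/-! ### The subcomplex -/

/-- the two end points of the edge from `1` to `x_0` -/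
def C0 : Set Y := {mk (V 1), mk (V (x 0))}

theorem C0_sub : IsFiniteSubcomplex C0 := by
  refine ⟨{Cell.v 1, Cell.v (x 0)}, by simp, ?_⟩
  ext y
  simp [C0, closedCell, or_comm]

theorem C0_H {y : Y} (hy : y ∈ C0) : H y = 0 ∧ isV y := by
  rcases hy with rfl | hy
  · refine ⟨?_, trivial⟩
    show ((ht 1 : ℤ) : ℝ) = 0
    rw [ht_one]; simp
  · rw [mem_singleton_iff] at hy
    subst hy
    refine ⟨?_, trivial⟩
    show ((ht (x 0) : ℤ) : ℝ) = 0
    rw [ht_x]; simp

theorem slice_E (g : F) (k : ℕ) : IsOpen {s : I | mk (E g k s) ∈ C0ᶜ} := by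
  have h : {s : I | mk (E g k s) ∈ C0ᶜ}ᶜ ⊆ {0, 1} := by
    intro s hs
    have hs' : mk (E g k s) ∈ C0 := by simpa using hs
    exact (C0_H hs').2
  have h2 := (Set.toFinite ({0, 1} : Set I)).subset h
  simpa using h2.isClosed.isOpen_compl

theorem slice_S (g : F) (r : Rel) : IsOpen {p : I × I | mk (S g r p) ∈ C0ᶜ} := by
  have h : {p : I × I | mk (S g r p) ∈ C0ᶜ}ᶜ ⊆ ({0, 1} : Set I) ×ˢ ({0, 1} : Set I) := by
    intro p hp
    have hp' : mk (S g r p) ∈ C0 := by simpa using hp
    exact (C0_H hp').2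
  have h2 := ((Set.toFinite ({0, 1} : Set I)).prod (Set.toFinite ({0, 1} : Set I))).subset h
  simpa using h2.isClosed.isOpen_compl

theorem C0_open : IsOpen C0ᶜ := by
  rw [← isQuot.isOpen_preimage, isOpen_sum_iff, isOpen_sum_iff, isOpen_sigma_iff, isOpen_sigma_iff]
  exact ⟨isOpen_discrete _, fun i => slice_E i.1 i.2, fun i => slice_S i.1 i.2⟩

/-! ### The maps which count the passages through the squares -/

/-- `0` on the bottom side of the square and `1` on the other sides -/
noncomputable def th (p : I × I) : ℝ :=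
  (p.2 : ℝ) / ((p.2 : ℝ) + p.1 * (1 - p.1) * (1 - p.2))

theorem th_bottom (s : I) : th (s, 0) = 0 := by simp [th]

theorem th_top (s : I) : th (s, 1) = 1 := by simp [th]

theorem th_left (t : I) : th (0, t) = 0 ∨ th (0, t) = 1 := by
  by_cases h : (t : ℝ) = 0
  · left; simp [th, h]
  · right; simp [th, h]

theorem th_right (t : I) : th (1, t) = 0 ∨ th (1, t) = 1 := by
  by_cases h : (t : ℝ) = 0
  · left; simp [th, h]
  · right; simp [th, h]

theorem th_den {p : I × I} (h0 : p ≠ (0, 0)) (h1 : p ≠ (1, 0)) :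
    ((p.2 : ℝ) + p.1 * (1 - p.1) * (1 - p.2)) ≠ 0 := by
  obtain ⟨s, t⟩ := p
  have s0 := s.2.1
  have s1 := s.2.2
  have t0 := t.2.1
  have t1 := t.2.2
  simp only
  by_cases ht : (t : ℝ) = 0
  · have ht' : t = 0 := Subtype.ext ht
    subst ht'
    have hs0 : (s : ℝ) ≠ 0 := fun h => h0 (by rw [show s = 0 from Subtype.ext h])
    have hs1 : (s : ℝ) ≠ 1 := fun h => h1 (by rw [show s = 1 from Subtype.ext h])
    have a : 0 < (s : ℝ) := lt_of_le_of_ne s0 (Ne.symm hs0)
    have b : (s : ℝ) < 1 := lt_of_le_of_ne s1 hs1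
    have : 0 < (s : ℝ) * (1 - s) := mul_pos a (by linarith)
    simp only [Icc.coe_zero, zero_add, sub_zero, mul_one]
    exact this.ne'
  · have a : 0 < (t : ℝ) := lt_of_le_of_ne t0 (Ne.symm ht)
    have : 0 ≤ (s : ℝ) * (1 - s) * (1 - t) :=
      mul_nonneg (mul_nonneg s0 (by linarith)) (by linarith)
    linarith

theorem th_cont : ContinuousOn th {p | p ≠ (0, 0) ∧ p ≠ (1, 0)} := by
  unfold th
  refine ContinuousOn.div ?_ ?_ fun p hp => th_den hp.1 hp.2
  · exact Continuous.continuousOn (by fun_prop)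
  · exact Continuous.continuousOn (by fun_prop)

section Phi

variable {Z : Type} [TopologicalSpace Z] (z : Z) (b : ℕ → ℝ → Z)

open Classical in
/-- the map `b n ∘ th` on the square `σ_n` and the constant map `z` on all other cells -/
noncomputable def Phi0 : Pre → Z
  | Sum.inl _ => z
  | Sum.inr (Sum.inl _) => z
  | Sum.inr (Sum.inr ⟨(g, r), p⟩) => if g = 1 ∧ r.1.1 = 0 then b r.1.2 (th p) else z

omit [TopologicalSpace Z] in
theorem Phi0_glue (h0 : ∀ n, b n 0 = z) (h1 : ∀ n, b n 1 = z) (q q' : Pre) (h : Glue q q') :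
    Phi0 z b q = Phi0 z b q' := by
  cases h with
  | source g k => rfl
  | target g k => rfl
  | bottom g r s => simp [S, E, Phi0, th_bottom, h0]
  | top g r s => simp [S, E, Phi0, th_top, h1]
  | left g r t => rcases th_left t with h | h <;> simp [S, E, Phi0, h, h0, h1]
  | right g r t => rcases th_right t with h | h <;> simp [S, E, Phi0, h, h0, h1]

/-- the map on the complex -/
noncomputable def Phi (h0 : ∀ n, b n 0 = z) (h1 : ∀ n, b n 1 = z) : Y → Z :=
  Quot.lift (Phi0 z b) (Phi0_glue z b h0 h1)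

theorem Phi_cont (h0 : ∀ n, b n 0 = z) (h1 : ∀ n, b n 1 = z) (hb : ∀ n, Continuous (b n)) :
    ContinuousOn (Phi z b h0 h1) C0ᶜ := by
  classical
  rw [continuousOn_open_iff C0_open]
  intro U hU
  rw [← isQuot.isOpen_preimage, isOpen_sum_iff, isOpen_sum_iff, isOpen_sigma_iff, isOpen_sigma_iff]
  refine ⟨isOpen_discrete _, fun i => ?_, fun i => ?_⟩
  · have e : (Sigma.mk i ⁻¹' (Sum.inl ⁻¹' (Sum.inr ⁻¹' (mk ⁻¹' (C0ᶜ ∩ Phi z b h0 h1 ⁻¹' U))))) =
        {s : I | mk (E i.1 i.2 s) ∈ C0ᶜ} ∩ {_s : I | z ∈ U} := rfl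
    rw [e]
    exact (slice_E i.1 i.2).inter isOpen_const
  · obtain ⟨g, r⟩ := i
    have e : (Sigma.mk (g, r) ⁻¹' (Sum.inr ⁻¹' (Sum.inr ⁻¹' (mk ⁻¹' (C0ᶜ ∩ Phi z b h0 h1 ⁻¹' U))))) =
        {p : I × I | mk (S g r p) ∈ C0ᶜ} ∩
          (fun p => if g = 1 ∧ r.1.1 = 0 then b r.1.2 (th p) else z) ⁻¹' U := rfl
    rw [e]
    by_cases hc : g = 1 ∧ r.1.1 = 0
    · simp only [if_pos hc]
      obtain ⟨rfl, hr⟩ := hc
      refine ContinuousOn.isOpen_inter_preimage ?_ (slice_S 1 r) hU
      refine (hb _).comp_continuousOn (th_cont.mono ?_)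
      intro p hp
      constructor
      · rintro rfl
        apply hp
        rw [g_bottom, g_source]
        exact Or.inl rfl
      · rintro rfl
        apply hp
        rw [g_bottom, g_target, hr, one_mul]
        exact Or.inr rfl
    · simp only [if_neg hc]
      exact (slice_S g r).inter isOpen_const

end Phi

/-! ### The component and the degrees -/

/-- the number `1 / 2` -/
noncomputable def half : I := ⟨1 / 2, by norm_num, by norm_num⟩

theorem half_ne_zero : half ≠ 0 := fun h => by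
  have := congrArg Subtype.val h
  simp [half] at this

theorem half_ne_one : half ≠ 1 := fun h => by
  have := congrArg Subtype.val h
  norm_num [half] at this

/-- the middle of the edge from `1` to `x_0` -/
noncomputable def y0 : Y := mk (E 1 0 half)

theorem y0_mem : y0 ∈ C0ᶜ := fun h => by
  rcases (C0_H h).2 with h | h
  · exact half_ne_zero h
  · exact half_ne_one h

/-- the component of the middle of the edge -/
abbrev K : Set Y := connectedComponentIn C0ᶜ y0

theorem K_sub : K ⊆ C0ᶜ := connectedComponentIn_subset _ _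

/-- the base point -/
noncomputable def base : K := ⟨y0, mem_connectedComponentIn y0_mem⟩

/-- the projection to the circle for `m = n`, constant otherwise -/
noncomputable def bc (n m : ℕ) (θ : ℝ) : AddCircle (1 : ℝ) :=
  if m = n then (θ : AddCircle (1 : ℝ)) else 0

theorem bc_zero (n m : ℕ) : bc n m 0 = 0 := by
  unfold bc; split_ifs <;> rfl

theorem bc_one (n m : ℕ) : bc n m 1 = 0 := by
  unfold bc
  split_ifs
  · exact AddCircle.coe_period 1
  · rfl

theorem bc_cont (n m : ℕ) : Continuous (bc n m) := by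
  unfold bc
  split_ifs
  · exact AddCircle.continuous_mk' 1
  · exact continuous_const

/-- the map which counts the passages through `σ_n` -/
noncomputable def fY (n : ℕ) : Y → AddCircle (1 : ℝ) := Phi 0 (bc n) (bc_zero n) (bc_one n)

/-- the same on the component -/
noncomputable def f (n : ℕ) : C(K, AddCircle (1 : ℝ)) where
  toFun y := fY n y.1
  continuous_toFun :=
    (Phi_cont 0 (bc n) (bc_zero n) (bc_one n) (bc_cont n)).comp_continuous continuous_subtype_val
      fun y => K_sub y.2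

/-- a real valued map with the value `n / 4` in the middle of `σ_n` -/
noncomputable def hY : Y → ℝ :=
  Phi 0 (fun (m : ℕ) (θ : ℝ) => (m : ℝ) * (θ * (1 - θ))) (fun _ => by ring) (fun _ => by ring)

theorem hY_cont : Continuous fun y : K => hY y.1 :=
  (Phi_cont 0 _ _ _ (fun m => by fun_prop)).comp_continuous continuous_subtype_val
    fun y => K_sub y.2

theorem th_mem (p : I × I) : 0 ≤ th p ∧ th p ≤ 1 := by
  obtain ⟨s, t⟩ := p
  have s0 := s.2.1
  have s1 := s.2.2
  have t0 := t.2.1
  have t1 := t.2.2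
  have h : 0 ≤ (s : ℝ) * (1 - s) * (1 - t) :=
    mul_nonneg (mul_nonneg s0 (by linarith)) (by linarith)
  unfold th
  simp only
  exact ⟨div_nonneg t0 (by linarith), div_le_one_of_le₀ (by linarith) (by linarith)⟩

theorem coe_half_ne : ((1 / 2 : ℝ) : AddCircle (1 : ℝ)) ≠ 0 := by
  intro h
  rw [AddCircle.coe_eq_zero_iff] at h
  obtain ⟨m, hm⟩ := h
  rw [zsmul_eq_mul, mul_one] at hm
  have h2 : ((2 * m : ℤ) : ℝ) = ((1 : ℤ) : ℝ) := by
    push_cast
    linarith
  have h3 : 2 * m = 1 := by exact_mod_cast h2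
  omega

theorem coe_eq_half {θ : ℝ} (h : (θ : AddCircle (1 : ℝ)) = ((1 / 2 : ℝ) : AddCircle (1 : ℝ))) :
    ∃ m : ℤ, θ = 1 / 2 + m := by
  have h1 : ((θ - 1 / 2 : ℝ) : AddCircle (1 : ℝ)) = 0 := by
    rw [AddCircle.coe_sub, h, sub_self]
  rw [AddCircle.coe_eq_zero_iff] at h1
  obtain ⟨m, hm⟩ := h1
  rw [zsmul_eq_mul, mul_one] at hm
  exact ⟨m, by linarith⟩

theorem hY_of_fY {n : ℕ} {y : Y} (h : fY n y = ((1 / 2 : ℝ) : AddCircle (1 : ℝ))) :
    hY y = n / 4 := by
  classical
  obtain ⟨q, rfl⟩ := isQuot.surjective y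
  rcases q with g | ⟨i, s⟩ | ⟨⟨g, r⟩, p⟩
  · exact absurd h.symm coe_half_ne
  · exact absurd h.symm coe_half_ne
  · change (if g = 1 ∧ r.1.1 = 0 then bc n r.1.2 (th p) else 0) = _ at h
    change (if g = 1 ∧ r.1.1 = 0 then (r.1.2 : ℝ) * (th p * (1 - th p)) else 0) = _
    split_ifs at h with hc
    · rw [if_pos hc]
      unfold bc at h
      split_ifs at h with hn
      · obtain ⟨m, hm⟩ := coe_eq_half h
        obtain ⟨a, b⟩ := th_mem p
        have h1 : (-1 : ℝ) < m := by linarith
        have h2 : (m : ℝ) < 1 := by linarith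
        have h3 : (-1 : ℤ) < m := by exact_mod_cast h1
        have h4 : m < 1 := by exact_mod_cast h2
        have h5 : m = 0 := by omega
        rw [hm, h5, hn]
        norm_num
        ring
      · exact absurd h.symm coe_half_ne
    · exact absurd h.symm coe_half_ne

theorem cov : IsAddQuotientCoveringMap ((↑) : ℝ → AddCircle (1 : ℝ))
    (AddSubgroup.zmultiples (1 : ℝ)) := AddCircle.isAddQuotientCoveringMap_coe (1 : ℝ)

/-- the base point of the covering -/
noncomputable def e0 (n : ℕ) : ((↑) : ℝ → AddCircle (1 : ℝ)) ⁻¹' {f n base} := ⟨0, rfl⟩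

/-- the degree -/
noncomputable def Psi (n : ℕ) :
    FundamentalGroup K base →* (Multiplicative (AddSubgroup.zmultiples (1 : ℝ)))ᵐᵒᵖ :=
  (cov.fundamentalGroupToMulOpposite (e0 n)).comp (FundamentalGroup.map (f n) base)

theorem Psi_iff (n : ℕ) (γ : Path base base) (Γ : C(I, ℝ))
    (h1 : ∀ t, ((Γ t : ℝ) : AddCircle (1 : ℝ)) = f n (γ t)) (h2 : Γ 0 = 0) :
    Psi n (Path.Homotopic.Quotient.mk γ) = 1 ↔ Γ 1 = 0 := by
  unfold Psi
  rw [MonoidHom.comp_apply, cov.fundamentalGroupToMulOpposite_eq_one_iff]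
  have h0 : (γ.map (f n).continuous : C(I, AddCircle (1 : ℝ))) 0 = ((0 : ℝ) : AddCircle (1 : ℝ)) := by
    have := h1 0
    rw [h2] at this
    exact this.symm
  have e : Γ = cov.isCoveringMap.liftPath (γ.map (f n).continuous) 0 h0 :=
    (cov.isCoveringMap.eq_liftPath_iff' h0).2 ⟨funext h1, h2⟩
  have e2 : (cov.isCoveringMap.monodromy (FundamentalGroup.map (f n) base
      (Path.Homotopic.Quotient.mk γ)) (e0 n)).1 = Γ 1 := by
    rw [e]; rfl
  rw [Subtype.ext_iff, e2]
  rfl

theorem Psi_avoid (n : ℕ) (γ : Path base base)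
    (h : ∀ t, f n (γ t) ≠ ((1 / 2 : ℝ) : AddCircle (1 : ℝ))) :
    Psi n (Path.Homotopic.Quotient.mk γ) = 1 := by
  have h0 : (γ.map (f n).continuous : C(I, AddCircle (1 : ℝ))) 0 = ((0 : ℝ) : AddCircle (1 : ℝ)) := by
    show f n (γ 0) = _
    rw [γ.source]
    rfl
  obtain ⟨Γ, hΓ⟩ : ∃ Γ, Γ = cov.isCoveringMap.liftPath (γ.map (f n).continuous) 0 h0 := ⟨_, rfl⟩
  obtain ⟨h1, h2⟩ := (cov.isCoveringMap.eq_liftPath_iff' h0).1 hΓ
  have h1' : ∀ t, ((Γ t : ℝ) : AddCircle (1 : ℝ)) = f n (γ t) := fun t => congrFun h1 t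
  rw [Psi_iff n γ Γ h1' h2]
  have a1 : ¬ (1 / 2 : ℝ) ≤ Γ 1 := by
    intro hc
    obtain ⟨t, ht⟩ := mem_range_of_exists_le_of_exists_ge (c := (1 / 2 : ℝ)) Γ.continuous
      ⟨0, by rw [h2]; norm_num⟩ ⟨1, hc⟩
    apply h t
    rw [← h1' t, ht]
  have a2 : ¬ Γ 1 ≤ (-1 / 2 : ℝ) := by
    intro hc
    obtain ⟨t, ht⟩ := mem_range_of_exists_le_of_exists_ge (c := (-1 / 2 : ℝ)) Γ.continuous
      ⟨1, hc⟩ ⟨0, by rw [h2]; norm_num⟩
    apply h t
    rw [← h1' t, ht, ← sub_eq_zero, ← AddCircle.coe_sub, AddCircle.coe_eq_zero_iff]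
    exact ⟨-1, by norm_num⟩
  have a3 : ((Γ 1 : ℝ) : AddCircle (1 : ℝ)) = 0 := by
    rw [h1' 1, γ.target]
    rfl
  rw [AddCircle.coe_eq_zero_iff] at a3
  obtain ⟨m, hm⟩ := a3
  rw [zsmul_eq_mul, mul_one] at hm
  rw [← hm] at a1 a2 ⊢
  rw [not_le] at a1 a2
  have b1 : (m : ℝ) < 1 := by linarith
  have b2 : (-1 : ℝ) < m := by linarith
  have b3 : m < 1 := by exact_mod_cast b1
  have b4 : (-1 : ℤ) < m := by exact_mod_cast b2
  have b5 : m = 0 := by omega
  rw [b5]
  simp

theorem Psi_eventually (γ : Path base base) :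
    ∃ B : ℕ, ∀ n, B ≤ n → Psi n (Path.Homotopic.Quotient.mk γ) = 1 := by
  obtain ⟨M, hM⟩ := (isCompact_range (hY_cont.comp γ.continuous)).bddAbove
  obtain ⟨B, hB⟩ := exists_nat_gt (4 * M)
  refine ⟨B, fun n hn => Psi_avoid n γ fun t ht => ?_⟩
  have h1 : hY (γ t).1 = n / 4 := hY_of_fY ht
  have h2 : hY (γ t).1 ≤ M := hM ⟨t, rfl⟩
  have h3 : (B : ℝ) ≤ n := by exact_mod_cast hn
  rw [h1] at h2
  linarith

/-! ### Paths in the complement -/

/-- the complement without the open square `σ_n` (and a bit more) -/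
def Zn (n : ℕ) : Set Y := {y | y ∈ C0ᶜ ∧ fY n y = 0}

theorem E_cont (g : F) (k : ℕ) : Continuous fun s : I => mk (E g k s) :=
  mk_cont.comp (continuous_inr.comp (continuous_inl.comp continuous_sigmaMk))

theorem S_cont (g : F) (r : Rel) : Continuous fun p : I × I => mk (S g r p) :=
  mk_cont.comp (continuous_inr.comp (continuous_inr.comp continuous_sigmaMk))

theorem joinedI (s s' : I) : Joined s s' :=
  haveI : PathConnectedSpace I := isPathConnected_iff_pathConnectedSpace.1
    ((convex_Icc (0 : ℝ) 1).isPathConnected ⟨0, by simp⟩)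
  PathConnectedSpace.joined s s'

theorem edge_join (n : ℕ) (g : F) (k : ℕ) (s s' : I) (h : ∀ u : I, H (mk (E g k u)) ≠ 0) :
    JoinedIn (Zn n) (mk (E g k s)) (mk (E g k s')) := by
  obtain ⟨γ⟩ := joinedI s s'
  exact ⟨γ.map (E_cont g k), fun t => ⟨fun hc => h _ (C0_H hc).1, rfl⟩⟩

/-- the relator `(0, m)` -/
def rr (m : ℕ) (hm : 0 < m) : Rel := ⟨(0, m), hm⟩

theorem square_mem (m : ℕ) (hm : 0 < m) (t : I) : mk (S 1 (rr m hm) (half, t)) ∈ C0ᶜ := fun h => by
  rcases (C0_H h).2.1 with h | h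
  · exact half_ne_zero h
  · exact half_ne_one h

theorem fY_square (n m : ℕ) (hm : 0 < m) (p : I × I) :
    fY n (mk (S 1 (rr m hm) p)) = bc n m (th p) := by
  classical
  show (if (1 : F) = 1 ∧ (0 : ℕ) = 0 then bc n m (th p) else 0) = _
  rw [if_pos ⟨rfl, rfl⟩]

theorem square_join (n m : ℕ) (hm : 0 < m) (hmn : m ≠ n) (t t' : I) :
    JoinedIn (Zn n) (mk (S 1 (rr m hm) (half, t))) (mk (S 1 (rr m hm) (half, t'))) := by
  obtain ⟨γ⟩ := joinedI t t'
  refine ⟨γ.map (f := fun u => mk (S 1 (rr m hm) (half, u)))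
    ((S_cont 1 (rr m hm)).comp (by fun_prop)), fun u => ⟨square_mem m hm _, ?_⟩⟩
  show fY n (mk (S 1 (rr m hm) (half, γ u))) = 0
  rw [fY_square]
  unfold bc
  rw [if_neg hmn]

theorem H_E (g : F) (k : ℕ) (u : I) : H (mk (E g k u)) = ht g + u * ht (x k) := rfl

theorem H_pos {g : F} {k : ℕ} (hg : 1 ≤ ht g) (u : I) : H (mk (E g k u)) ≠ 0 := by
  rw [H_E]
  have h1 : (1 : ℝ) ≤ ht g := by exact_mod_cast hg
  have h2 : (0 : ℝ) ≤ ht (x k) := by
    rw [ht_x]
    split_ifs <;> simp
  have h3 := mul_nonneg u.2.1 h2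
  intro h
  linarith

theorem ht_pos {n : ℕ} (hn : 0 < n) : 1 ≤ ht (x n) := by
  rw [ht_x, if_neg (by omega)]

theorem far (n : ℕ) (hn : 1 < n) :
    JoinedIn (Zn n) (mk (S 1 (rr n (by omega)) (half, 1))) y0 := by
  have hn0 : 0 < n := by omega
  have top : ∀ m (hm : 0 < m), mk (S 1 (rr m hm) (half, 1)) = mk (E (x m) 0 half) := by
    intro m hm
    rw [g_top, one_mul]
    rfl
  have bot : mk (S 1 (rr 1 one_pos) (half, 0)) = y0 := g_bottom 1 (rr 1 one_pos) half
  -- from the top of `σ_m` to `x_m`, `x_m x_{n+2} = x_{n+1} x_m` and `x_{n+1}`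
  have part : ∀ m (hm : 0 < m), m < n + 1 →
      JoinedIn (Zn n) (mk (S 1 (rr m hm) (half, 1))) (mk (V (x (n + 1)))) := by
    intro m hm hmn
    have j1 : JoinedIn (Zn n) (mk (E (x m) 0 half)) (mk (E (x m) 0 0)) :=
      edge_join n _ _ _ _ (H_pos (ht_pos hm))
    have j2 : JoinedIn (Zn n) (mk (E (x m) (n + 1 + 1) 0)) (mk (E (x m) (n + 1 + 1) 1)) :=
      edge_join n _ _ _ _ (H_pos (ht_pos hm))
    have j3 : JoinedIn (Zn n) (mk (E (x (n + 1)) m 1)) (mk (E (x (n + 1)) m 0)) :=
      edge_join n _ _ _ _ (H_pos (ht_pos (Nat.succ_pos n)))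
    rw [g_source] at j1 j2 j3
    rw [g_target, ← rel_eq hmn] at j2
    rw [g_target] at j3
    rw [top m hm]
    exact (j1.trans j2).trans j3
  have p1 := part n hn0 (Nat.lt_succ_self n)
  have p2 := part 1 one_pos (by omega)
  have p3 : JoinedIn (Zn n) (mk (S 1 (rr 1 one_pos) (half, 1)))
      (mk (S 1 (rr 1 one_pos) (half, 0))) := square_join n 1 one_pos (by omega) 1 0
  rw [bot] at p3
  exact (p1.trans p2.symm).trans p3

theorem exists_loop (n : ℕ) (hn : 1 < n) :
    ∃ γ : Path base base, Psi n (Path.Homotopic.Quotient.mk γ) ≠ 1 := by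
  have hn0 : 0 < n := by omega
  obtain ⟨β, hβ⟩ := far n hn
  -- up in `σ_n`
  have bot : mk (S 1 (rr n hn0) (half, 0)) = y0 := g_bottom 1 (rr n hn0) half
  obtain ⟨α, hα⟩ : ∃ α : Path y0 (mk (S 1 (rr n hn0) (half, 1))),
      ∀ t, α t = mk (S 1 (rr n hn0) (half, t)) :=
    ⟨{ toFun := fun t => mk (S 1 (rr n hn0) (half, t))
       continuous_toFun := (S_cont 1 (rr n hn0)).comp (by fun_prop)
       source' := bot
       target' := rfl }, fun _ => rfl⟩
  have hmem : ∀ t, (α.trans β) t ∈ C0ᶜ := by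
    intro t
    rw [Path.trans_apply]
    split_ifs
    · rw [hα]; exact square_mem n hn0 _
    · exact (hβ _).1
  have hK : ∀ t, (α.trans β) t ∈ K := by
    have h1 : range (α.trans β) ⊆ K := by
      refine (isPreconnected_range (α.trans β).continuous).subset_connectedComponentIn ?_ ?_
      · exact ⟨0, (α.trans β).source⟩
      · rintro _ ⟨t, rfl⟩
        exact hmem t
    exact fun t => h1 ⟨t, rfl⟩
  obtain ⟨γ, hγ⟩ : ∃ γ : Path base base, ∀ t, (γ t).1 = (α.trans β) t :=
    ⟨{ toFun := fun t => ⟨(α.trans β) t, hK t⟩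
       continuous_toFun := (α.trans β).continuous.subtype_mk _
       source' := Subtype.ext (α.trans β).source
       target' := Subtype.ext (α.trans β).target }, fun _ => rfl⟩
  refine ⟨γ, ?_⟩
  -- the lift
  have hc : Continuous fun t : I => th (half, t) := by
    refine th_cont.comp_continuous (by fun_prop) fun t => ?_
    constructor
    · intro h
      exact half_ne_zero (congrArg Prod.fst h)
    · intro h
      exact half_ne_one (congrArg Prod.fst h)
  obtain ⟨A, hA⟩ : ∃ A : Path (0 : ℝ) 1, ∀ t, A t = th (half, t) :=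
    ⟨{ toFun := fun t => th (half, t)
       continuous_toFun := hc
       source' := th_bottom half
       target' := th_top half }, fun _ => rfl⟩
  have key : ∀ t, (((A.trans (Path.refl 1)) t : ℝ) : AddCircle (1 : ℝ)) = f n (γ t) := by
    intro t
    show _ = fY n (γ t).1
    rw [hγ, Path.trans_apply, Path.trans_apply]
    split_ifs
    · rw [hA, hα, fY_square]
      unfold bc
      rw [if_pos rfl]
    · rw [(hβ _).2]
      exact AddCircle.coe_period 1
  have h1 := Psi_iff n γ (A.trans (Path.refl 1)).toContinuousMap key (A.trans (Path.refl 1)).source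
  rw [Ne, h1]
  show ¬ (A.trans (Path.refl 1)) 1 = 0
  rw [(A.trans (Path.refl 1)).target]
  exact one_ne_zero

theorem not_fg : ¬ Group.FG (FundamentalGroup K base) := by
  intro h
  obtain ⟨T, hT⟩ := Group.fg_def.1 h
  have hex : ∀ a : FundamentalGroup K base, ∃ B : ℕ, ∀ n, B ≤ n → Psi n a = 1 := by
    intro a
    obtain ⟨γ, rfl⟩ := Path.Homotopic.Quotient.mk_surjective a
    exact Psi_eventually γ
  choose B hB using hex
  obtain ⟨n, hn⟩ : ∃ n, n = T.sup B + 2 := ⟨_, rfl⟩
  have h1 : Psi n = 1 := by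
    refine MonoidHom.eq_of_eqOn_dense hT ?_
    intro a ha
    refine hB a n ?_
    have := Finset.le_sup (f := B) (Finset.mem_coe.1 ha)
    omega
  obtain ⟨γ, hγ⟩ := exists_loop n (by omega)
  exact hγ (by rw [h1]; rfl)

/-- **The trivial subgroup is not tame in `F` with respect to `P_∞`.** (For `C = C0`, the two end
points of the edge from `1` to `x_0`, the fundamental group of the component of the middle of this
edge in the complement of `C` is not finitely generated.) -/
theorem result : ¬ Tame := fun h => not_fg (h C0 C0_sub y0 y0_mem)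

end Pool.Agent.Results.MP_d8e3a9_al.NotTame
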